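import Mathlib

set_option autoImplicit false

/-!
# The upper half of the Recht-Ré (noncommutative Maclaurin type) inequality fails

For all `m ≤ n` with `40 n ≤ m ^ 2` (for instance all `m = n ≥ 40`) there are real symmetric positive
semidefinite matrices `A₁, …, Aₙ` of size `n + 1` with `A₁ + … + Aₙ = n I` for which the sum
`S_m` of the products over all ordered `m`-tuples of distinct indices is not `≤ n!/(n-m)! I`.

The matrices are `A_i = I + b √n (w_i vᵀ + v w_iᵀ)` with `b = tan (2π/m)`, `v` a unit vector and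
`w_i = δ_i - (1/n) 1` the vertices of a simplex orthogonal to `v`.
-/

namespace Pool.Agent.Results.MP_6eb00f_an.UpperHalfFails

open Matrix

/-- `S_m(A₁, …, Aₙ)`: the sum of `A_{j₁} A_{j₂} ⋯ A_{jₘ}` over all ordered `m`-tuples of pairwise
distinct indices. -/
noncomputable def S {n d : ℕ} (m : ℕ) (A : Fin n → Matrix (Fin d) (Fin d) ℝ) :
    Matrix (Fin d) (Fin d) ℝ :=
  ∑ j ∈ (Finset.univ : Finset (Fin m → Fin n)).filter Function.Injective,
    (List.ofFn fun k => A (j k)).prod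

/-- the vector `v` -/
def vv (n : ℕ) : Fin (n + 1) → ℝ := Fin.cons 1 0

/-- the vectors `b √n (δ_i - 1/n)` -/
noncomputable def uu (n : ℕ) (b : ℝ) (i : Fin n) : Fin (n + 1) → ℝ :=
  Fin.cons 0 fun j => b * Real.sqrt n * ((if j = i then 1 else 0) - 1 / n)

/-- the matrices -/
noncomputable def AA (n : ℕ) (b : ℝ) (i : Fin n) : Matrix (Fin (n + 1)) (Fin (n + 1)) ℝ :=
  1 + (vecMulVec (uu n b i) (vv n) + vecMulVec (vv n) (uu n b i))

theorem vv_dot (n : ℕ) (y : Fin (n + 1) → ℝ) : vv n ⬝ᵥ y = y 0 := by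
  simp [vv, dotProduct, Fin.sum_univ_succ]

theorem AA_mulVec (n : ℕ) (b : ℝ) (i : Fin n) (y : Fin (n + 1) → ℝ) :
    AA n b i *ᵥ y = y + (y 0 • uu n b i + (uu n b i ⬝ᵥ y) • vv n) := by
  unfold AA
  rw [add_mulVec, add_mulVec, one_mulVec, vecMulVec_mulVec, vecMulVec_mulVec, vv_dot]
  simp

theorem uu_dot_vv (n : ℕ) (b : ℝ) (i : Fin n) : uu n b i ⬝ᵥ vv n = 0 := by
  rw [dotProduct_comm, vv_dot]; rfl

theorem uu_zero (n : ℕ) (b : ℝ) (i : Fin n) : uu n b i 0 = 0 := rfl

theorem vv_zero (n : ℕ) : vv n 0 = 1 := rfl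

theorem uu_dot_uu (n : ℕ) (hn : 0 < n) (b : ℝ) (i j : Fin n) (hij : i ≠ j) :
    uu n b i ⬝ᵥ uu n b j = -b ^ 2 := by
  have hn' : (n : ℝ) ≠ 0 := by positivity
  simp only [uu, dotProduct, Fin.sum_univ_succ, Fin.cons_zero, Fin.cons_succ, mul_zero, zero_add]
  have h1 : ∀ x : Fin n, b * Real.sqrt n * ((if x = i then (1:ℝ) else 0) - 1 / n) *
      (b * Real.sqrt n * ((if x = j then (1:ℝ) else 0) - 1 / n)) =
      b ^ 2 * n * ((if x = i then (1:ℝ) else 0) * (if x = j then (1:ℝ) else 0)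
        - 1 / n * (if x = i then (1:ℝ) else 0) - 1 / n * (if x = j then (1:ℝ) else 0)
        + 1 / n ^ 2) := by
    intro x
    have : Real.sqrt n * Real.sqrt n = n := Real.mul_self_sqrt (by positivity)
    linear_combination (b ^ 2 * ((if x = i then (1:ℝ) else 0) - 1 / n) *
      ((if x = j then (1:ℝ) else 0) - 1 / n)) * this
  rw [Finset.sum_congr rfl fun x _ => h1 x, ← Finset.mul_sum, Finset.sum_add_distrib,
    Finset.sum_sub_distrib, Finset.sum_sub_distrib, ← Finset.mul_sum, ← Finset.mul_sum]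
  have h2 : ∑ x : Fin n, (if x = i then (1:ℝ) else 0) * (if x = j then (1:ℝ) else 0) = 0 := by
    apply Finset.sum_eq_zero
    intro x _
    by_cases hx : x = i
    · rw [if_neg (show ¬ x = j from fun h => hij (hx ▸ h)), mul_zero]
    · rw [if_neg hx, zero_mul]
  rw [h2]
  simp
  field_simp
  ring

theorem uu_norm (n : ℕ) (hn : 0 < n) (b : ℝ) (i : Fin n) :
    uu n b i ⬝ᵥ uu n b i = b ^ 2 * (n - 1) := by
  have hn' : (n : ℝ) ≠ 0 := by positivity
  simp only [uu, dotProduct, Fin.sum_univ_succ, Fin.cons_zero, Fin.cons_succ, mul_zero, zero_add]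
  have h1 : ∀ x : Fin n, b * Real.sqrt n * ((if x = i then (1:ℝ) else 0) - 1 / n) *
      (b * Real.sqrt n * ((if x = i then (1:ℝ) else 0) - 1 / n)) =
      b ^ 2 * n * ((if x = i then (1:ℝ) else 0) - 2 / n * (if x = i then (1:ℝ) else 0)
        + 1 / n ^ 2) := by
    intro x
    have : Real.sqrt n * Real.sqrt n = n := Real.mul_self_sqrt (by positivity)
    split_ifs
    · linear_combination (b ^ 2 * (1 - 1 / n) ^ 2) * this
    · linear_combination (b ^ 2 * (0 - 1 / n) ^ 2) * this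
  rw [Finset.sum_congr rfl fun x _ => h1 x, ← Finset.mul_sum, Finset.sum_add_distrib,
    Finset.sum_sub_distrib, ← Finset.mul_sum]
  simp
  field_simp
  ring

theorem AA_herm (n : ℕ) (b : ℝ) (i : Fin n) : (AA n b i).IsHermitian := by
  unfold AA Matrix.IsHermitian
  rw [conjTranspose_eq_transpose_of_trivial, transpose_add, transpose_add, transpose_one,
    transpose_vecMulVec, transpose_vecMulVec, add_comm (vecMulVec (vv n) (uu n b i))]

theorem AA_psd (n : ℕ) (hn : 0 < n) (b : ℝ) (hb : b ^ 2 * (n - 1) ≤ 1) (i : Fin n) :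
    (AA n b i).PosSemidef := by
  refine PosSemidef.of_dotProduct_mulVec_nonneg (AA_herm n b i) fun x => ?_
  have hstar : star x = x := by ext k; simp
  rw [hstar, AA_mulVec, dotProduct_add, dotProduct_add, dotProduct_smul, dotProduct_smul,
    dotProduct_comm x (vv n), vv_dot, dotProduct_comm x (uu n b i)]
  simp only [smul_eq_mul]
  set s := uu n b i ⬝ᵥ x with hs
  have hcs : s ^ 2 ≤ (b ^ 2 * (n - 1)) * ∑ k : Fin n, x k.succ ^ 2 := by
    have h1 : s = ∑ k : Fin n, uu n b i k.succ * x k.succ := by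
      rw [hs, dotProduct, Fin.sum_univ_succ, uu_zero, zero_mul, zero_add]
    have h2 : b ^ 2 * (n - 1) = ∑ k : Fin n, uu n b i k.succ ^ 2 := by
      rw [← uu_norm n hn b i, dotProduct, Fin.sum_univ_succ, uu_zero, zero_mul, zero_add]
      exact Finset.sum_congr rfl fun k _ => by ring
    rw [h1, h2]
    exact Finset.sum_mul_sq_le_sq_mul_sq _ _ _
  have hxx : x ⬝ᵥ x = x 0 ^ 2 + ∑ k : Fin n, x k.succ ^ 2 := by
    rw [dotProduct, Fin.sum_univ_succ, sq]
    congr 1
    exact Finset.sum_congr rfl fun k _ => by ring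
  have hnn : 0 ≤ ∑ k : Fin n, x k.succ ^ 2 := Finset.sum_nonneg fun k _ => sq_nonneg _
  rw [hxx]
  nlinarith [sq_nonneg (x 0 + s)]

theorem AA_sum (n : ℕ) (hn : 0 < n) (b : ℝ) : ∑ i, AA n b i = (n : ℝ) • 1 := by
  have hn' : (n : ℝ) ≠ 0 := by positivity
  have hu : ∑ i, uu n b i = 0 := by
    ext k
    rw [Finset.sum_apply]
    refine Fin.cases ?_ (fun j => ?_) k
    · simp [uu_zero]
    · simp only [uu, Fin.cons_succ, Pi.zero_apply]
      rw [← Finset.mul_sum, Finset.sum_sub_distrib]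
      simp
      field_simp
      simp
  unfold AA
  rw [Finset.sum_add_distrib, Finset.sum_add_distrib]
  have h1 : ∑ i, vecMulVec (uu n b i) (vv n) = vecMulVec (∑ i, uu n b i) (vv n) := by
    ext k l
    simp [Matrix.sum_apply, vecMulVec_apply, Finset.sum_mul]
  have h2 : ∑ i, vecMulVec (vv n) (uu n b i) = vecMulVec (vv n) (∑ i, uu n b i) := by
    ext k l
    simp [Matrix.sum_apply, vecMulVec_apply, Finset.mul_sum]
  rw [h1, h2, hu]
  simp [Matrix.smul_one_eq_diagonal]
  ext k l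
  simp [Matrix.natCast_apply, Matrix.diagonal_apply]

/-- The state after applying a product over distinct indices to `v`. -/
theorem state (n : ℕ) (hn : 0 < n) (x : ℝ) (hx : Real.cos x ≠ 0) (l : List (Fin n))
    (hl : l.Nodup) :
    ((l.map (AA n (Real.tan x))).prod *ᵥ vv n) 0 = Real.cos (l.length * x) / Real.cos x ^ l.length ∧
    ∀ i, i ∉ l → uu n (Real.tan x) i ⬝ᵥ ((l.map (AA n (Real.tan x))).prod *ᵥ vv n) =
      -(Real.tan x * (Real.sin (l.length * x) / Real.cos x ^ l.length)) := by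
  induction l with
  | nil => simp [vv_zero, uu_dot_vv]
  | cons a l ih =>
    obtain ⟨ha, hl'⟩ := List.nodup_cons.mp hl
    obtain ⟨h0, h1⟩ := ih hl'
    set y := (l.map (AA n (Real.tan x))).prod *ᵥ vv n with hy
    have hstep : ((a :: l).map (AA n (Real.tan x))).prod *ᵥ vv n =
        y + (y 0 • uu n (Real.tan x) a + (uu n (Real.tan x) a ⬝ᵥ y) • vv n) := by
      rw [List.map_cons, List.prod_cons, ← mulVec_mulVec, ← hy, AA_mulVec]
    rw [hstep]
    have hlen : ((a :: l).length : ℝ) * x = l.length * x + x := by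
      rw [List.length_cons]; push_cast; ring
    have hlen' : (a :: l).length = l.length + 1 := List.length_cons
    rw [hlen, hlen']
    have htan : Real.tan x = Real.sin x / Real.cos x := Real.tan_eq_sin_div_cos x
    constructor
    · simp only [Pi.add_apply, Pi.smul_apply, smul_eq_mul, uu_zero, vv_zero, mul_zero, zero_add,
        mul_one]
      rw [h1 a ha, h0, Real.cos_add, htan]
      field_simp
      ring
    · intro i hi
      have hia : i ≠ a := fun h => hi (h ▸ List.mem_cons_self)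
      have hil : i ∉ l := fun h => hi (List.mem_cons_of_mem _ h)
      rw [dotProduct_add, dotProduct_add, dotProduct_smul, dotProduct_smul, uu_dot_vv, smul_zero,
        add_zero, h1 i hil, uu_dot_uu n hn _ i a hia, h0, Real.sin_add, htan, smul_eq_mul]
      field_simp
      ring

theorem quad (n m : ℕ) (hn : 0 < n) (x : ℝ) (hx : Real.cos x ≠ 0) (hmn : m ≤ n) :
    vv n ⬝ᵥ (S m (AA n (Real.tan x)) *ᵥ vv n) =
      (n.factorial / (n - m).factorial : ℝ) * (Real.cos (m * x) / Real.cos x ^ m) := by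
  unfold S
  rw [Matrix.sum_mulVec, dotProduct_sum]
  have h1 : ∀ j ∈ (Finset.univ : Finset (Fin m → Fin n)).filter Function.Injective,
      vv n ⬝ᵥ ((List.ofFn fun k => AA n (Real.tan x) (j k)).prod *ᵥ vv n) =
      Real.cos (m * x) / Real.cos x ^ m := by
    intro j hj
    have hj' : Function.Injective j := (Finset.mem_filter.mp hj).2
    rw [vv_dot]
    have h2 : (List.ofFn fun k => AA n (Real.tan x) (j k)) =
        (List.ofFn j).map (AA n (Real.tan x)) := by
      rw [List.map_ofFn]; rfl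
    rw [h2, (state n hn x hx (List.ofFn j) (List.nodup_ofFn.mpr hj')).1, List.length_ofFn]
  rw [Finset.sum_congr rfl h1, Finset.sum_const, nsmul_eq_mul]
  congr 1
  have h3 : ((Finset.univ : Finset (Fin m → Fin n)).filter Function.Injective).card =
      n.descFactorial m := by
    have h4 : Fintype.card {f : Fin m → Fin n // Function.Injective f} =
        Fintype.card (Fin m ↪ Fin n) :=
      Fintype.card_congr (Equiv.subtypeInjectiveEquivEmbedding (Fin m) (Fin n))
    rw [← Fintype.card_subtype, h4, Fintype.card_embedding_eq, Fintype.card_fin,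
      Fintype.card_fin]
  rw [h3, Nat.descFactorial_eq_div hmn, Nat.cast_div (Nat.factorial_dvd_factorial (by omega))
    (by positivity)]

/-- For all `m ≤ n` with `40 n ≤ m²` there are positive semidefinite real symmetric matrices
`A₁, …, Aₙ` of size `n + 1` with `A₁ + … + Aₙ = n I` and a unit vector `v` for which
`vᵀ S_m(A₁, …, Aₙ) v ≥ (n!/(n-m)!) / cos(2π/m)^m`, which is larger than `n!/(n-m)!`. -/
theorem result (m n : ℕ) (hmn : m ≤ n) (hm : 40 * n ≤ m ^ 2) (hn : 0 < n) :
    ∃ A : Fin n → Matrix (Fin (n + 1)) (Fin (n + 1)) ℝ,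
      (∀ i, (A i).IsSymm ∧ (A i).PosSemidef) ∧ ∑ i, A i = (n : ℝ) • 1 ∧
      (∃ v : Fin (n + 1) → ℝ, v ⬝ᵥ v = 1 ∧
        v ⬝ᵥ (S m A *ᵥ v) =
          (n.factorial / (n - m).factorial : ℝ) / Real.cos (2 * Real.pi / m) ^ m) ∧
      0 < Real.cos (2 * Real.pi / m) ∧ Real.cos (2 * Real.pi / m) < 1 ∧
      ¬ ((n.factorial / (n - m).factorial : ℝ) • (1 : Matrix (Fin (n + 1)) (Fin (n + 1)) ℝ)
          - S m A).PosSemidef := by
  have hm40 : 40 ≤ m := by
    by_contra h
    push Not at h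
    have h1 : 40 * m ≤ m ^ 2 := le_trans (by omega) hm
    have h0 : 0 < m := by
      rcases Nat.eq_zero_or_pos m with h2 | h2
      · subst h2; omega
      · exact h2
    nlinarith
  have hmR : (40 : ℝ) ≤ m := by exact_mod_cast hm40
  have hm0 : (0 : ℝ) < m := by linarith
  set x := 2 * Real.pi / m with hxdef
  have hx0 : 0 < x := by positivity
  have hxm : x * m = 2 * Real.pi := by rw [hxdef]; field_simp
  have hx1 : x ≤ 1 / 6 := by
    rw [hxdef, div_le_div_iff₀ hm0 (by norm_num)]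
    have := Real.pi_lt_d2
    linarith
  have hcos : 1 - x ^ 2 / 2 ≤ Real.cos x := Real.one_sub_sq_div_two_le_cos
  have hcpos : 0 < Real.cos x := by nlinarith
  have hcos1 : Real.cos x < 1 := by
    have h1 : Real.cos x < Real.cos 0 :=
      Real.cos_lt_cos_of_nonneg_of_le_pi le_rfl (by linarith [Real.pi_gt_three]) hx0
    rwa [Real.cos_zero] at h1
  have hsin : Real.sin x ≤ x := Real.sin_le hx0.le
  have hsin0 : 0 ≤ Real.sin x := Real.sin_nonneg_of_nonneg_of_le_pi hx0.le
    (by linarith [Real.pi_gt_three])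
  -- the bound `tan² x (n - 1) ≤ 1`
  have htan : Real.tan x ^ 2 * (n - 1) ≤ 1 := by
    have hnm : (n : ℝ) ≤ (m : ℝ) ^ 2 / 40 := by
      have : ((40 * n : ℕ) : ℝ) ≤ ((m ^ 2 : ℕ) : ℝ) := by exact_mod_cast hm
      push_cast at this
      linarith
    rw [Real.tan_eq_sin_div_cos, div_pow, div_mul_eq_mul_div, div_le_one (by positivity)]
    have hn1 : (n : ℝ) - 1 ≤ (m : ℝ) ^ 2 / 40 - 1 := by linarith
    have h0 : (0 : ℝ) ≤ (m : ℝ) ^ 2 / 40 - 1 := by nlinarith
    have hs2 : Real.sin x ^ 2 ≤ x ^ 2 := pow_le_pow_left₀ hsin0 hsin 2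
    have hpi : Real.pi ^ 2 ≤ 10 := by
      have := Real.pi_lt_d2
      have := Real.pi_pos
      nlinarith
    calc Real.sin x ^ 2 * (n - 1) ≤ Real.sin x ^ 2 * ((m : ℝ) ^ 2 / 40 - 1) :=
          mul_le_mul_of_nonneg_left hn1 (sq_nonneg _)
      _ ≤ x ^ 2 * ((m : ℝ) ^ 2 / 40 - 1) := mul_le_mul_of_nonneg_right hs2 h0
      _ = (2 * Real.pi) ^ 2 / 40 - x ^ 2 := by rw [← hxm]; ring
      _ ≤ (1 - x ^ 2 / 2) ^ 2 := by nlinarith [sq_nonneg (x ^ 2)]
      _ ≤ Real.cos x ^ 2 := pow_le_pow_left₀ (by nlinarith) hcos 2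
  have hq := quad n m hn x hcpos.ne' hmn
  have hcmx : Real.cos (m * x) = 1 := by
    rw [mul_comm, hxm, Real.cos_two_pi]
  rw [hcmx] at hq
  have hvv : vv n ⬝ᵥ vv n = 1 := by rw [vv_dot, vv_zero]
  refine ⟨AA n (Real.tan x), fun i => ⟨?_, AA_psd n hn _ htan i⟩, AA_sum n hn _,
    ⟨vv n, hvv, ?_⟩, hcpos, hcos1, ?_⟩
  · have := AA_herm n (Real.tan x) i
    rwa [Matrix.IsHermitian, conjTranspose_eq_transpose_of_trivial] at this
  · rw [hq]; ring
  · intro hpsd
    have h1 := hpsd.dotProduct_mulVec_nonneg (vv n)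
    have hstar : star (vv n) = vv n := by ext k; simp
    rw [hstar, Matrix.sub_mulVec, dotProduct_sub, Matrix.smul_mulVec, one_mulVec,
      dotProduct_smul, hvv, hq] at h1
    have hf : (0 : ℝ) < n.factorial / (n - m).factorial := by positivity
    have hc : Real.cos x ^ m < 1 := pow_lt_one₀ hcpos.le hcos1 (by omega)
    have hc' : 1 < 1 / Real.cos x ^ m := by
      rw [lt_div_iff₀ (by positivity)]; linarith
    simp only [smul_eq_mul] at h1
    nlinarith

end Pool.Agent.Results.MP_6eb00f_an.UpperHalfFails
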